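import Pool.Agent.U918.LP.Seq

/-!
# `p_{kn}² - 2` and `2 k + 1 + 2 h` prime for almost all `h`, for every `n`, with arbitrary weights on the `k`

The question asks, for every `n`, for a `k ≤ n` with `2 k + 1` and `p_{kn}² - 2` prime (`p_j` is the `j`-th prime). Here
the condition on `p_{kn}² - 2` is kept, for EVERY `n`, although nothing is known on how often it holds: let `w` be any
bounded real weight on the `k`. For all but a share `log ^ (-U) X` of the vectors `(h₁, …, h_r)` of integers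
`1 ≤ h_i ≤ B X`, the sum of `w k` over the `k` with `p_{kn}² - 2` prime for which all the numbers `2 k + 1 + 2 h_i` are
prime is the sum of `w k ∏ 1 / (V z log (2 k + 1 + 2 h_i))` over the `k` with `p_{kn}² - 2` prime for which all the numbers
`2 k + 1 + 2 h_i` are free of primes `≤ z`, up to an error `X / log ^ D X`; here `z` is a power of `log X`,
`V z = ∏_{l ≤ z} (1 - 1/l)`, and this holds simultaneously for all initial intervals `k ≤ y`, `y ≤ X` (for example
`y = X = n`), and all residue classes of `k` to all moduli up to `log ^ K X`. The condition of the question is `h = 0`.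
-/

set_option autoImplicit false

open Finset

namespace Pool.Agent.Results.MP_c971ef_nt.ArbitraryWeights

/-- the product of `1 - 1/l` over the primes `l ≤ z` -/
noncomputable def V (z : ℕ) : ℝ := ∏ l ∈ (Icc 1 z).filter Nat.Prime, (1 - 1 / (l : ℝ))

/-- the `m`-th prime -/
noncomputable def p (m : ℕ) : ℕ := Nat.nth Nat.Prime (m - 1)

/-- `p_{kn}² - 2` is prime -/
def Good (n k : ℕ) : Prop := (p (k * n) ^ 2 - 2).Prime

open Classical in
/-- the sum of `w k` over the `k ≤ y`, `k ≡ a mod q`, with `p_{kn}² - 2` prime, for which all the numbers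
`2 k + 1 + 2 h i` are prime -/
noncomputable def primeSum {r : ℕ} (n : ℕ) (w : ℕ → ℝ) (h : Fin r → ℕ) (q a y : ℕ) : ℝ :=
  ∑ k ∈ (Icc 1 y).filter (fun k => Good n k ∧ k ≡ a [MOD q] ∧ ∀ i, (2 * k + 1 + 2 * h i).Prime), w k

open Classical in
/-- the sum of `w k / ∏ (V z · log (2 k + 1 + 2 h i))` over the `k ≤ y`, `k ≡ a mod q`, with `p_{kn}² - 2` prime, for
which no prime `l ≤ z` divides any of the numbers `2 k + 1 + 2 h i` -/
noncomputable def modelSum {r : ℕ} (z n : ℕ) (w : ℕ → ℝ) (h : Fin r → ℕ) (q a y : ℕ) : ℝ :=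
  ∑ k ∈ (Icc 1 y).filter (fun k => Good n k ∧ k ≡ a [MOD q] ∧
    ∀ i, ∀ l : ℕ, l.Prime → l ≤ z → ¬ l ∣ 2 * k + 1 + 2 * h i),
    w k * ∏ i, (V z * Real.log ((2 * k + 1 + 2 * h i : ℕ) : ℝ))⁻¹

open Classical in
/-- **The theorem.** For all `r`, `B`, `U`, `D`, `K` there is `B₀` such that for every `E`, every large `X`, every
integer `z` with `log ^ B₀ X ≤ z ≤ log ^ E X`, EVERY `n` and EVERY weight `w` with `|w k| ≤ 1`: for all but at most
`X ^ r / log ^ U X` of the vectors `h` of integers `1 ≤ h i ≤ B X`, one has for all `y ≤ X`, all moduli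
`1 ≤ q ≤ log ^ K X` and all classes `a` that `primeSum n w h q a y` and `modelSum z n w h q a y` differ by at most
`X / log ^ D X`. -/
theorem result (r B U D K : ℕ) :
    ∃ B₀ : ℕ, ∀ E : ℕ, ∃ X₀ : ℕ, ∀ X : ℕ, X₀ ≤ X → ∀ z : ℕ, Real.log X ^ B₀ ≤ z → (z : ℝ) ≤ Real.log X ^ E →
    ∀ n : ℕ, ∀ w : ℕ → ℝ, (∀ k, |w k| ≤ 1) →
    (((Fintype.piFinset (fun _ : Fin r => Icc 1 (B * X))).filter (fun h =>
      ∃ y ≤ X, ∃ q a : ℕ, 1 ≤ q ∧ (q : ℝ) ≤ Real.log X ^ K ∧
        (X : ℝ) / Real.log X ^ D < |primeSum n w h q a y - modelSum z n w h q a y|)).card : ℝ) ≤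
      (X : ℝ) ^ r / Real.log X ^ U := by
  obtain ⟨B₀, h0⟩ := Pool.Agent.U918.LP.lin r (fun _ => True) (fun _ => 2) (fun _ => 2) (fun _ => 1)
    (fun _ => by norm_num) (fun _ => by norm_num) (fun _ => by norm_num) B U D K
  refine ⟨B₀, fun E => ?_⟩
  obtain ⟨x0, hx0⟩ := h0 E
  refine ⟨x0, fun X hX z hz1 hz2 n w hw => ?_⟩
  have hw' : ∀ k, |(if Good n k then w k else 0)| ≤ 1 := by
    intro k
    split_ifs
    · exact hw k
    · rw [abs_zero]
      exact zero_le_one
  refine le_trans (le_of_eq ?_) (hx0 X hX z hz1 hz2 (fun k => if Good n k then w k else 0) hw')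
  have ev : ∀ k h : ℕ, Pool.Agent.U918.LP.lv 2 2 1 k h = 2 * k + 1 + 2 * h := by
    intro k h
    unfold Pool.Agent.U918.LP.lv
    push_cast
    omega
  have e1 : ∀ (h : Fin r → ℕ) (q a y : ℕ), primeSum n w h q a y = Pool.Agent.U918.LP.PL (fun _ => True) (fun _ => 2)
      (fun _ => 2) (fun _ => 1) (fun k => if Good n k then w k else 0) h q a y := by
    intro h q a y
    unfold primeSum Pool.Agent.U918.LP.PL
    simp only [ev, true_and]
    rw [sum_filter, sum_filter]
    apply sum_congr rfl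
    intro k _
    by_cases h1 : Good n k <;> simp [h1]
  have e2 : ∀ (h : Fin r → ℕ) (q a y : ℕ), modelSum z n w h q a y = Pool.Agent.U918.LP.ML (fun _ => True) (fun _ => 2)
      (fun _ => 2) (fun _ => 1) z (fun k => if Good n k then w k else 0) h q a y := by
    intro h q a y
    unfold modelSum Pool.Agent.U918.LP.ML
    simp only [ev, true_and]
    have hV : Pool.Agent.H373R2.T7.Vz z = V z := rfl
    rw [hV, sum_filter, sum_filter]
    apply sum_congr rfl
    intro k _
    by_cases h1 : Good n k <;> simp [h1]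
  simp only [e1, e2]

end Pool.Agent.Results.MP_c971ef_nt.ArbitraryWeights
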