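import Mathlib
import Pool.Agent.U288.RO.O1
import Pool.Agent.R498.MP.LinC

/-!
# Primes `p_{k n}` with almost prime `p_{k n} ^ 2 - 2`: the images of sparse patterns, for all small `n`

For `n, v ≤ R` and a residue class `b` modulo `v` we consider the primes `p_{t n}, p_{(t + v) n}, p_{(t + 2 v) n}, ...`,
`t ≡ b (mod v)`, whose indices are the multiples `k n` of `n` with `k` in the class. Fix the number `d` of the coordinates,
`L` and `R`. For all large `X` and ANY `L` injective maps `φ_1, ..., φ_L` from `{0, ..., X}` to the integers, for ALL large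
`N` a positive proportion of the vectors `0 < h_1 < ... < h_d ≤ X` for which all `h_j` and all `h_j - h_i` are shifted primes
has the property: for ALL `n, v ≤ R`, ALL `b`, ALL `j ≤ L` and ALL nonempty `T ⊆ {h_1, ..., h_d}` there are `m` such that
the numbers `m + φ_j(t)`, `t ∈ T`, are primes in `(N, 2 N]`, namely consecutive terms of the sequence of the `p_{k n}`,
`k ≡ b (mod v)`, and `p ^ 2 - 2` is an almost prime for each of them; these `m` can be taken to form a progression of any
given length with difference at most a power of `log N`. The proportion and the order of the almost primes do not depend on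
the maps, nor on `N`.

Proof. By the theorem `Pool.Agent.R498.MP.stringsCR` of the starting files every set of `K₁` integers contains the pattern of
a string of `R ^ 2 d` consecutive primes `p` with almost prime `p ^ 2 - 2`; by van der Waerden's theorem the index of the first
of them is in a fixed class modulo `n v` along a progression, and we keep every `(n v)`-th prime, starting at the right index
(`Nx.base_D`). By Ramsey's theorem every set of `K` integers up to `X` contains `d + 1` elements `s_0 < ... < s_d` such that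
all the images of all the nonempty parts of `{s_1 - s_0, ..., s_d - s_0}` occur, for all `n, v, b` (`Nx.hered`). A family
of patterns which is met by every set of `K` integers contains a positive proportion of the patterns made of shifted primes
(`Pool.Agent.U288.SP.principle`: counts of the configurations of `K` points and of pairs of them, and the inequality of
Cauchy and Schwarz).
-/

set_option autoImplicit false

namespace Pool.Agent.Results.MP_c971ef_nt.PatternsOfMultiples

open Filter Finset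

/-- the `m`-th prime, `pr 1 = 2` -/
noncomputable def pr (m : ℕ) : ℕ := Nat.nth Nat.Prime (m - 1)

/-- `x ^ 2 - 2` has at most `r` prime factors, counted with multiplicity, all of them at least `w` -/
def AlmostPrimeValue (r : ℕ) (w : ℝ) (x : ℤ) : Prop :=
  (x ^ 2 - 2).natAbs.primeFactorsList.length ≤ r ∧ ∀ p : ℕ, p.Prime → (p : ℤ) ∣ x ^ 2 - 2 → w ≤ p

open Classical in
/-- the vectors `0 = h 0 < h 1 < ... < h d ≤ X`; if `σ ≠ 0`, those with `h j - h i + σ` prime for all `0 ≤ i < j ≤ d` -/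
noncomputable def patterns (d : ℕ) (σ : ℤ) (X : ℕ) : Finset (Fin (d + 1) → ℕ) :=
  (Fintype.piFinset (fun _ : Fin (d + 1) => range (X + 1))).filter (fun h => h 0 = 0 ∧ StrictMono h ∧
    ∀ i j, i < j → σ ≠ 0 → ((h j : ℤ) - h i + σ).toNat.Prime)

/-- the number of the conditions -/
def edges (d : ℕ) (σ : ℤ) : ℕ := if σ = 0 then 0 else d * (d + 1) / 2

/-- There is a progression of `l` terms `m' = m + i e`, `0 ≤ i < l`, with difference `1 ≤ e ≤ (log N) ^ B`, such that for
each of them: the integers `x = m' + y`, `y ∈ V`, are in `(N, 2 N]` and `≡ c (mod q)`, the numbers `x ^ 2 - 2` are almost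
primes, and the `x` are the primes `p_{t n}, p_{(t + v) n}, ..., p_{(t + (|V| - 1) v) n}` for some `t ≡ b (mod v)`. -/
def Occurs (n v b q c r : ℕ) (w : ℝ) (l B N : ℕ) (V : Finset ℤ) : Prop :=
  ∃ (m : ℤ) (e : ℕ), 1 ≤ e ∧ (e : ℝ) ≤ Real.log N ^ B ∧ ∀ i < l,
    (∀ y ∈ V, (N : ℤ) < m + i * e + y ∧ m + i * e + y ≤ 2 * N ∧ m + i * e + y ≡ c [ZMOD q] ∧
      AlmostPrimeValue r w (m + i * e + y)) ∧
    ∃ t : ℕ, 1 ≤ t ∧ t ≡ b [MOD v] ∧
      V.image (fun y => m + i * e + y) = (range V.card).image (fun j => (pr ((t + j * v) * n) : ℤ))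

/-- the set `{h 1, ..., h d}` -/
def points {d : ℕ} (h : Fin (d + 1) → ℕ) : Finset ℕ := (univ : Finset (Fin d)).image (fun a => h a.succ)

open Classical in
/-- the patterns such that `φ_j(T)` occurs in `(N, 2 N]` for all `n, v ≤ R`, all classes `b` modulo `v`, all `j` and all
nonempty `T ⊆ {h 1, ..., h d}` -/
noncomputable def good {L : ℕ} (d R : ℕ) (σ : ℤ) (q c r : ℕ) (w : ℝ) (l B N : ℕ) (φ : Fin L → ℕ → ℤ) (X : ℕ) :
    Finset (Fin (d + 1) → ℕ) :=
  (patterns d σ X).filter (fun h => ∀ n v b : ℕ, 1 ≤ n → n ≤ R → 1 ≤ v → v ≤ R → ∀ j, ∀ T ⊆ points h, T.Nonempty →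
    Occurs n v b q c r w l B N (T.image (φ j)))

theorem eval_f (n : ℤ) : (Polynomial.X ^ 2 - 2 : Polynomial ℤ).eval n = n ^ 2 - 2 := by
  simp

theorem nonzero (n : ℤ) : n ^ 2 - 2 ≠ 0 := by
  intro h
  have h1 : n.natAbs * n.natAbs = 2 := by
    zify
    rw [← sq, sq_abs]
    linarith
  have h2 : n.natAbs ≤ 1 := by nlinarith
  interval_cases n.natAbs <;> omega

theorem adm (p : ℕ) (hp : p.Prime) :
    ∃ n : ℤ, ¬ (p : ℤ) ∣ n * (Polynomial.X ^ 2 - 2 : Polynomial ℤ).eval n := by
  refine ⟨1, fun h => ?_⟩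
  rw [eval_f] at h
  have h3 : (p : ℤ) ∣ 1 := by
    have h4 := h.mul_left (-1)
    norm_num at h4
    exact_mod_cast h4
  exact hp.one_lt.ne' (Nat.dvd_one.1 (by exact_mod_cast h3))

/-- **Primes `p_{k n}` with almost prime `p_{k n} ^ 2 - 2` in every interval `(N, 2 N]`, for all `n ≤ R` and all residue
classes of `k` modulo `v ≤ R`, in all the images of a positive proportion of the patterns made of shifted primes.** The
constants `c₁`, `C`, `δ`, `r` and the bound for `X` do not depend on the maps `φ`. -/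
theorem result (d L R q c : ℕ) (hq : Squarefree q) (hc : IsCoprime ((c : ℤ) * ((c : ℤ) ^ 2 - 2)) (q : ℤ)) (σ : ℤ)
    (hσ : σ = 0 ∨ σ = 1 ∨ σ = -1) :
    ∃ (c₁ C δ : ℝ) (r : ℕ), 0 < c₁ ∧ 0 < δ ∧ ∃ X₀ : ℕ, ∀ X : ℕ, X₀ ≤ X →
      ((patterns d σ X).card : ℝ) ≤ C * ((X : ℝ) ^ d / Real.log X ^ edges d σ) ∧
      ∀ φ : Fin L → ℕ → ℤ, (∀ j, Set.InjOn (φ j) (Set.Iic X)) → ∀ l : ℕ, ∃ B N₀ : ℕ, ∀ N : ℕ, N₀ ≤ N →
        c₁ * ((X : ℝ) ^ d / Real.log X ^ edges d σ) ≤ ((good d R σ q c r ((N : ℝ) ^ δ) l B N φ X).card : ℝ) := by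
  classical
  obtain ⟨c₁, C, δ, r, hc1, hδ, h⟩ := Pool.Agent.U288.RO.Nx.fin_idx (Polynomial.X ^ 2 - 2)
    (fun n _ => by rw [eval_f]; exact nonzero n) adm q c hq
    (fun p hp hpq => by
      rw [eval_f]
      exact Pool.Agent.R498.MP.cop_to _ q hc p hp hpq) d L (R * R) σ hσ
  obtain ⟨X₀, h⟩ := eventually_atTop.1 h
  refine ⟨c₁, C, δ, r, hc1, hδ, X₀, fun X hX => ?_⟩
  obtain ⟨h1, h2⟩ := h X hX
  have e : (Pool.Agent.U288.SP.shifts (fun _ _ : Fin (d + 1) => σ) X) = patterns d σ X := by
    unfold Pool.Agent.U288.SP.shifts patterns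
    congr!
  rw [e] at h1 h2
  refine ⟨h1, fun φ hφ l => ?_⟩
  obtain ⟨B, hB⟩ := h2 φ hφ l
  obtain ⟨N₀, hB⟩ := eventually_atTop.1 hB
  refine ⟨B, N₀, fun N hN => (hB N hN).trans ?_⟩
  rw [Nat.cast_le]
  apply card_le_card
  intro z hz
  rw [mem_filter] at hz
  unfold good
  rw [mem_filter]
  refine ⟨hz.1, fun n v b hn1 hn2 hv1 hv2 j T hT hTn => ?_⟩
  set b' : ℕ := if b % v = 0 then v else b % v with hb'
  have hb1 : 1 ≤ b' := by
    rw [hb']
    split_ifs <;> omega
  have hb2 : b' ≤ v := by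
    have := Nat.mod_lt b hv1
    rw [hb']
    split_ifs <;> omega
  have hb3 : b' ≡ b [MOD v] := by
    unfold Nat.ModEq
    rw [hb']
    split_ifs with h
    · rw [Nat.mod_self, h]
    · exact Nat.mod_mod b v
  have hnb : 1 ≤ n * b' := Nat.mul_pos hn1 hb1
  have hnv : n * b' ≤ n * v := Nat.mul_le_mul_left _ hb2
  obtain ⟨m, e, he1, he2, he3⟩ := hz.2 (n * v) (n * b' - 1) (Nat.mul_pos hn1 hv1) (Nat.mul_le_mul hn2 hv2) (by omega) j T hT hTn
  refine ⟨m, e, he1, he2, fun i hi => ?_⟩
  obtain ⟨g1, t, g2⟩ := he3 i hi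
  refine ⟨fun y hy => ?_, v * t + b', by omega, ?_, ?_⟩
  · obtain ⟨g3, g4, g5, -, g6, g7⟩ := g1 y hy
    rw [eval_f] at g6 g7
    exact ⟨g3, g4, g5, g6, g7⟩
  · have h3 : v * t + b' ≡ 0 + b' [MOD v] := Nat.ModEq.add_right _ ((Nat.modEq_zero_iff_dvd).2 (Dvd.intro t rfl))
    rw [zero_add] at h3
    exact h3.trans hb3
  · rw [g2]
    apply image_congr
    intro a _
    simp only
    unfold pr
    have h4 : n * v * (t + a) + (n * b' - 1) = (v * t + b' + a * v) * n - 1 := by
      have h5 : (v * t + b' + a * v) * n = n * v * (t + a) + n * b' := by ring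
      rw [h5]
      omega
    rw [h4]

end Pool.Agent.Results.MP_c971ef_nt.PatternsOfMultiples
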