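import Mathlib
import Pool.Agent.U310.Idx.E971

set_option autoImplicit false

/-!
# Primes `2k+1` and `p_{kn}^2 - 2` with `1 ≤ k ≤ n`, in random models of the primes

The primes are replaced by a random set `S` (integers prime to a fixed modulus `P` are decided one after the
other, with conditional probabilities asymptotic to `(P/φ(P)) / log m`; no independence is assumed), and `p_j` by
the `j`-th element of `S`.  Almost surely the number of `k ≤ n` with `2k+1` and `p_{kn}^2 - 2` in `S` is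
asymptotic to a positive constant times `n / log^2 n`, so the assertion of the question holds for all large `n`;
the elements `p_{kn}`, over the `k ≤ n` with `2k+1` in `S`, are equidistributed in the reduced residue classes.
-/

open MeasureTheory Filter
open scoped Topology

namespace Pool.Agent.Results.MP_c971ef_nt.RandomIndexModels

/-- A random model of the primes with sieving modulus `P`.  `S n` is the event that `n` is chosen; it is adapted
to the filtration `ℱ`; no `n` with a common factor with `P` is chosen; almost surely the conditional probability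
of `S (n + 1)` given `ℱ n`, times `log n · φ(P) / P`, tends to `1` along the `n` for which `n + 1` is prime
to `P`. -/
structure Model {Ω : Type} [mΩ : MeasurableSpace Ω] (μ : Measure Ω) (ℱ : Filtration ℕ mΩ)
    (S : ℕ → Set Ω) (P : ℕ) : Prop where
  adapted : ∀ n, MeasurableSet[ℱ n] (S n)
  sieved : ∀ n, ¬ Nat.Coprime n P → S n = ∅
  density : ∀ᵐ ω ∂μ, Tendsto (fun n : ℕ =>
    (μ[(S (n + 1)).indicator (fun _ => (1 : ℝ)) | ℱ n]) ω * Real.log n * ((Nat.totient P : ℝ) / P))
    (atTop ⊓ 𝓟 {n : ℕ | Nat.Coprime (n + 1) P}) (𝓝 1)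

/-- the set of the chosen positive integers -/
def chosen {Ω : Type} (S : ℕ → Set Ω) (ω : Ω) : Set ℕ := {m | 1 ≤ m ∧ ω ∈ S m}

/-- the `j`-th chosen positive integer, `j ≥ 1` -/
noncomputable def p {Ω : Type} (S : ℕ → Set Ω) (ω : Ω) (j : ℕ) : ℕ := Nat.nth (· ∈ chosen S ω) (j - 1)

/-- the `k`, `1 ≤ k ≤ n`, with `2 k + 1` chosen -/
def first {Ω : Type} (S : ℕ → Set Ω) (ω : Ω) (n : ℕ) : Set ℕ := {k | 1 ≤ k ∧ k ≤ n ∧ ω ∈ S (2 * k + 1)}

/-- the `k`, `1 ≤ k ≤ n`, with `2 k + 1` and `p_{kn}^2 - 2` chosen -/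
def both {Ω : Type} (S : ℕ → Set Ω) (ω : Ω) (n : ℕ) : Set ℕ :=
  {k | 1 ≤ k ∧ k ≤ n ∧ ω ∈ S (2 * k + 1) ∧ ω ∈ S (p S ω (k * n) ^ 2 - 2)}

/-- the number of the `x` modulo `P` with `2 x + 1` prime to `P` -/
noncomputable def u (P : ℕ) : ℕ := {x | x < P ∧ Nat.Coprime (2 * x + 1) P}.ncard

/-- the number of the `a` modulo `P` with `a` and `a ^ 2 - 2` prime to `P` -/
noncomputable def v (P : ℕ) : ℕ := {a : ℕ | a < P ∧ Nat.Coprime a P ∧ IsCoprime ((a : ℤ) ^ 2 - 2) (P : ℤ)}.ncard

/-- the constant -/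
noncomputable def const (P : ℕ) : ℝ := ((P : ℝ) / Nat.totient P) ^ 2 * (u P / P) * (v P / Nat.totient P) / 4

open Pool.Agent.U310.Idx

lemma u_eq (P : ℕ) : u P = c1 P := by
  unfold u c1
  rw [← Set.ncard_coe_finset]
  congr 1
  ext x
  simp

lemma v_eq {P : ℕ} (hP : 0 < P) : v P = c2 P := by
  unfold v c2
  rw [← Set.ncard_coe_finset]
  congr 1
  ext a
  simp only [Set.mem_setOf_eq, Finset.coe_filter, Cl, Finset.mem_filter, Finset.mem_range]
  have h : IsCoprime ((a : ℤ) ^ 2 - 2) (P : ℤ) ↔ gd P a := by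
    unfold gd
    rw [← Nat.isCoprime_iff_coprime]
    have e : ((a ^ 2 + 2 * (P - 1) : ℕ) : ℤ) = ((a : ℤ) ^ 2 - 2) + (P : ℤ) * 2 := by
      push_cast [Nat.cast_sub (show 1 ≤ P from hP)]
      ring
    rw [e]
    exact (IsCoprime.add_mul_left_left_iff (x := (a : ℤ) ^ 2 - 2) (y := (P : ℤ)) (z := 2)).symm
  rw [h]
  tauto

/-- **Q1 in random models.** -/
theorem result {Ω : Type} [mΩ : MeasurableSpace Ω] (μ : Measure Ω) [IsProbabilityMeasure μ]
    (ℱ : Filtration ℕ mΩ) (S : ℕ → Set Ω) (P : ℕ) (hP : 0 < P) (h : Model μ ℱ S P) :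
    0 < const P ∧ ∀ᵐ ω ∂μ, (chosen S ω).Infinite ∧
      Tendsto (fun n : ℕ => ((both S ω n).ncard : ℝ) * Real.log n ^ 2 / n) atTop (𝓝 (const P)) ∧
      (∀ᶠ n in atTop, ∃ k, 1 ≤ k ∧ k ≤ n ∧ ω ∈ S (2 * k + 1) ∧ ω ∈ S (p S ω (k * n) ^ 2 - 2)) ∧
      ∀ a : ℕ, a < P → Nat.Coprime a P →
        Tendsto (fun n : ℕ => (({k ∈ first S ω n | p S ω (k * n) % P = a}).ncard : ℝ) / (first S ω n).ncard) atTop
          (𝓝 (1 / Nat.totient P)) := by
  classical
  have hc : 0 < const P := by
    unfold const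
    rw [u_eq, v_eq hP]
    have h1 : (0 : ℝ) < c1 P := by exact_mod_cast c1_pos hP
    have h2 : (0 : ℝ) < c2 P := by exact_mod_cast c2_pos hP
    have h3 : (0 : ℝ) < P := by exact_mod_cast hP
    have h4 : (0 : ℝ) < Nat.totient P := by exact_mod_cast Nat.totient_pos.2 hP
    positivity
  refine ⟨hc, ?_⟩
  have hd := dens_of_model (μ := μ) hP h.sieved h.density
  filter_upwards [law971 (μ := μ) h.adapted hP h.sieved hd, equi971 (μ := μ) h.adapted hP hd] with ω h1 h2
  have hset : chosen S ω = setOf (sp S ω) := rfl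
  have hp : ∀ j, p S ω j = pe S ω j := fun j => rfl
  have hfirst : ∀ n, first S ω n = ↑(KK S ω n) := by
    intro n
    ext k
    unfold first KK
    simp only [Set.mem_setOf_eq, Finset.coe_filter, Finset.mem_Icc]
    tauto
  have hboth : ∀ n, both S ω n = ↑((KK S ω n).filter (fun k => ω ∈ S (pe S ω (k * n) ^ 2 - 2))) := by
    intro n
    ext k
    unfold both KK
    simp only [Set.mem_setOf_eq, Finset.coe_filter, Finset.mem_filter, Finset.mem_Icc, hp]
    tauto
  have hT : Tendsto (fun n : ℕ => ((both S ω n).ncard : ℝ) * Real.log n ^ 2 / n) atTop (𝓝 (const P)) := by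
    have e : const P = kap P ^ 2 * (c1 P / P) * (c2 P / Nat.totient P) / 4 := by
      unfold const kap; rw [u_eq, v_eq hP]
    rw [e]
    refine h1.2.congr fun n => ?_
    rw [hboth, Set.ncard_coe_finset]
  refine ⟨h1.1, hT, ?_, ?_⟩
  · filter_upwards [hT.eventually (lt_mem_nhds hc)] with n hn
    have h3 : (both S ω n).Nonempty := by
      rw [Set.nonempty_iff_ne_empty]
      intro h4
      rw [h4] at hn
      simp at hn
    obtain ⟨k, hk⟩ := h3
    exact ⟨k, hk.1, hk.2.1, hk.2.2.1, hk.2.2.2⟩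
  · intro a ha hac
    refine (h2 a ha hac).congr fun n => ?_
    have e1 : {k ∈ first S ω n | p S ω (k * n) % P = a} = ↑((KK S ω n).filter (fun k => pe S ω (k * n) % P = a)) := by
      ext k
      rw [hfirst]
      simp only [Set.mem_sep_iff, Finset.mem_coe, Finset.coe_filter, Set.mem_setOf_eq, hp]
    rw [e1, hfirst, Set.ncard_coe_finset, Set.ncard_coe_finset]

end Pool.Agent.Results.MP_c971ef_nt.RandomIndexModels
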