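import Pool.Agent.U918.SM.Bd

/-!
# `2 k + 1` and `p_{k n}²` plus independent shifts in arbitrary residue classes

The question asks, for every `n`, for some `k ≤ n` with `2 k + 1` and `p_{k n}² - 2` prime (`p_m` is the `m`-th
prime). Let `X` be large, `M` the product of the primes `≤ y`, where `y` is comparable to `log log X` (so `M` is a
power of `log X`). Let `K` be an ARBITRARY set of integers `1 ≤ k ≤ X`, for instance the set of all `k ≤ X` for which
`2 k + 1` is prime, let `n₁, …, n_r` be any integers between `1` and `log ^ A X` and let `a₁, …, a_r` be arbitrary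
residues modulo `M`, for instance the residue `-2` of the question. Then for almost all vectors of shifts `h_s ≡ a_s`
modulo `M`, in windows of length at least `X² / log ^ C X` below `X²`, the number of `k ∈ K` for which all the numbers
`p_{k n_s}² + h_s` are prime is asymptotically the number of `k ∈ K` for which all the numbers `p_{k n_s}² + a_s` are
prime to `M`, divided by `(2 V log X) ^ r`, `V = ∏_{q ≤ y} (1 - 1/q)`, up to an error `ε` times this number plus
`X / log ^ D X`.

The same holds if some of the numbers `p_{k n_s}²` are replaced by `2 k + 1`, with independent shifts `h_s ≤ X`.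
-/

set_option autoImplicit false

open Finset

namespace Pool.Agent.Results.MP_c971ef_nt.SmallModuli

/-- the `m`-th prime, `p 1 = 2` -/
noncomputable def p (m : ℕ) : ℕ := Nat.nth Nat.Prime (m - 1)

/-- the product of `1 - 1/q` over the primes `q ≤ y` -/
noncomputable def V (y : ℕ) : ℝ := ∏ q ∈ (Icc 1 y).filter Nat.Prime, (1 - 1 / (q : ℝ))

/-- `p_{k n}` (if `b = true`) or `2 k + 1` (if `b = false`) -/
noncomputable def base (b : Bool) (n k : ℕ) : ℕ := if b then p (k * n) else 2 * k + 1

/-- the exponent: `2` for `p_{k n}` and `1` for `2 k + 1` -/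
def ex (b : Bool) : ℕ := if b then 2 else 1

/-- the `k ∈ K` for which all the numbers `base ^ ex + h s` are prime -/
noncomputable def Primes {r : ℕ} (b : Fin r → Bool) (n : Fin r → ℕ) (K : Finset ℕ) (h : Fin r → ℕ) : Finset ℕ :=
  open Classical in K.filter (fun k => ∀ s, (base (b s) (n s) k ^ ex (b s) + h s).Prime)

/-- the `k ∈ K` for which all the numbers `base ^ ex + a s` are prime to `M` -/
noncomputable def Sifted {r : ℕ} (b : Fin r → Bool) (n : Fin r → ℕ) (M : ℕ) (K : Finset ℕ) (a : Fin r → ℕ) :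
    Finset ℕ :=
  open Classical in K.filter (fun k => ∀ s, (base (b s) (n s) k ^ ex (b s) + a s).Coprime M)

theorem ex_cases (b : Bool) : ex b = 1 ∨ ex b = 2 := by
  cases b <;> simp [ex]

theorem base_inj (b : Bool) (n X : ℕ) (hn : 1 ≤ n) (K : Finset ℕ) (hK : K ⊆ Icc 1 X) :
    Set.InjOn (fun k => base b n k) K := by
  intro k hk l hl h
  have h1 := mem_Icc.1 (hK (mem_coe.1 hk))
  have h2 := mem_Icc.1 (hK (mem_coe.1 hl))
  cases b
  · simp only [base, Bool.false_eq_true, if_false] at h
    omega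
  · simp only [base, if_true] at h
    have h3 : k * n = l * n := Pool.Agent.U918.IS.pr_inj (a := k * n) (b := l * n)
      (Nat.mul_pos h1.1 hn) (Nat.mul_pos h2.1 hn) h
    exact Nat.eq_of_mul_eq_mul_right hn h3

theorem base_pos (b : Bool) (n k : ℕ) : 1 ≤ base b n k := by
  cases b
  · simp only [base, Bool.false_eq_true, if_false]
    omega
  · simp only [base, if_true]
    exact (Pool.Agent.U918.IS.pr_prime (k * n)).one_lt.le

theorem base_bound (A : ℕ) : ∃ B X0 : ℕ, ∀ X : ℕ, X0 ≤ X → ∀ k : ℕ, k ≤ X → ∀ n : ℕ, (n : ℝ) ≤ Real.log X ^ A →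
    ∀ b : Bool, (base b n k : ℝ) ≤ X * Real.log X ^ B := by
  obtain ⟨B, n1, h1⟩ := Pool.Agent.U918.SM.pr_le A
  obtain ⟨n2, h2⟩ := Pool.Agent.H373R2.T7.ev_L' 3
  refine ⟨B + 1, max n1 (max n2 1), fun X hX k hk n hn b => ?_⟩
  have b1 : n1 ≤ X := le_trans (le_max_left _ _) hX
  have b2 : n2 ≤ X := le_trans (le_trans (le_max_left _ _) (le_max_right _ _)) hX
  have b3 : 1 ≤ X := le_trans (le_trans (le_max_right _ _) (le_max_right _ _)) hX
  have hL := h2 X b2
  obtain ⟨L, hLd⟩ : ∃ L, L = Real.log X := ⟨_, rfl⟩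
  have k1 := h1 X b1 (k * n)
  rw [← hLd] at hL hn k1 ⊢
  have hXr : (1 : ℝ) ≤ X := by exact_mod_cast b3
  have hLB : 1 ≤ L ^ B := one_le_pow₀ (by linarith)
  have h7 : 3 ≤ L ^ (B + 1) := by
    rw [pow_succ]
    nlinarith
  have hkr : (k : ℝ) ≤ X := by exact_mod_cast hk
  cases b
  · simp only [base, Bool.false_eq_true, if_false]
    push_cast
    nlinarith
  · simp only [base, if_true]
    have h3 : (p (k * n) : ℝ) ≤ X * L ^ B := k1 (by
      push_cast
      exact mul_le_mul hkr hn (Nat.cast_nonneg _) (by linarith))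
    refine h3.trans (mul_le_mul_of_nonneg_left ?_ (by linarith))
    exact pow_le_pow_right₀ (by linarith) (by omega)

/-- **The theorem.** For finitely many conditions, the kinds of which are given by `b : Fin r → Bool`, and all
`A`, `C`, `D`, `0 < ε ≤ 1` there is `K₀` such that for every `K₁`, every large `X` and every `y` between
`K₀ log log X` and `K₁ log log X`, with `M` the product of the primes `≤ y`, the following holds. Let `K` be any
set of integers `1 ≤ k ≤ X`, let `n s` be integers between `1` and `log ^ A X`, `a s` any integers `≥ 0`, and let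
`(g₀ s, g₀ s + G s]` be windows with `a s + M (g₀ s + G s) ≤ X ^ e_s` and `X ^ e_s ≤ M (G s) log ^ C X`, where `e_s`
is `2` for a condition on `p_{k n_s}²` and `1` for a condition on `2 k + 1`. For all but at most `ε ∏ G s` of the
vectors `g`, `1 ≤ g s ≤ G s`, the number of the `k ∈ K` for which the numbers of all conditions, shifted by
`a s + M (g₀ s + g s)`, are prime differs from `S / ∏ (e_s V y log X)`, where `S` is the number of the `k ∈ K` for
which the numbers of all conditions, shifted by `a s`, are prime to `M`, by at most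
`ε S / ∏ (e_s V y log X) + X / log ^ D X`. -/
theorem result (r : ℕ) (b : Fin r → Bool) (A C D : ℕ) (ε : ℝ) (hε : 0 < ε) (hε1 : ε ≤ 1) :
    ∃ K₀ : ℕ, ∀ K₁ : ℕ, ∃ X₀ : ℕ, ∀ X : ℕ, X₀ ≤ X →
    ∀ y : ℕ, K₀ * Real.log (Real.log X) ≤ y → y ≤ K₁ * Real.log (Real.log X) →
    ∀ K : Finset ℕ, K ⊆ Icc 1 X → ∀ n : Fin r → ℕ, (∀ s, 1 ≤ n s ∧ (n s : ℝ) ≤ Real.log X ^ A) →
    ∀ a g₀ G : Fin r → ℕ, (∀ s, a s + primorial y * (g₀ s + G s) ≤ X ^ ex (b s)) →
    (∀ s, (X : ℝ) ^ ex (b s) ≤ primorial y * G s * Real.log X ^ C) →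
      (((Fintype.piFinset (fun s => Icc 1 (G s))).filter (fun g =>
        ε * ((Sifted b n (primorial y) K a).card / ∏ s, (ex (b s) * (V y * Real.log X))) + X / Real.log X ^ D <
        |((Primes b n K (fun s => a s + primorial y * (g₀ s + g s))).card : ℝ) -
          (Sifted b n (primorial y) K a).card / ∏ s, (ex (b s) * (V y * Real.log X))|)).card : ℝ) ≤
      ε * ∏ s, (G s : ℝ) := by
  obtain ⟨B, n1, hB⟩ := base_bound A
  obtain ⟨K₀, hK₀⟩ := Pool.Agent.U918.SM.main r B C D ε hε hε1
  refine ⟨K₀, fun K₁ => ?_⟩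
  obtain ⟨n₀, hn₀⟩ := hK₀ K₁
  refine ⟨max n₀ n1, fun X hX y hy1 hy2 K hK n hn a g₀ G a1 a2 => ?_⟩
  exact hn₀ X (le_trans (le_max_left _ _) hX) y hy1 hy2 (fun s => ex (b s)) (fun s => ex_cases (b s)) K
    (fun s k => base (b s) (n s) k) (fun s => base_inj (b s) (n s) X (hn s).1 K hK)
    (fun s k hk => ⟨base_pos (b s) (n s) k,
      hB X (le_trans (le_max_right _ _) hX) k (mem_Icc.1 (hK hk)).2 (n s) (hn s).2 (b s)⟩)
    a g₀ G a1 a2
    (fun g => Primes b n K (fun s => a s + primorial y * (g₀ s + g s)))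
    (fun _ => Sifted b n (primorial y) K a)
    (fun g => by unfold Primes; exact filter_subset _ _)
    (fun g => by unfold Sifted; exact filter_subset _ _)
    (fun g j hj => by
      simp only [Primes, mem_filter]
      exact ⟨fun h => h.2, fun h => ⟨hj, h⟩⟩)
    (fun g j hj => by
      simp only [Sifted, mem_filter]
      exact ⟨fun h => h.2, fun h => ⟨hj, h⟩⟩)

end Pool.Agent.Results.MP_c971ef_nt.SmallModuli
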